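import Mathlib
import Pool.Agent.Work.MP_2ecbc5_gt.Full

set_option autoImplicit false

open MeasureTheory Filter Topology

namespace Pool.Agent.Results.MP_2ecbc5_gt.ShapeConvergence

/-- The Steiner symmetral `s_u K` of a set `K` in `R^n`: all points `x + t u` with `x` orthogonal
to `u`, the line `x + R u` meeting `K`, and `|t|` at most half the length of the slice of `K`
by that line. -/
def steinerSymmetral {n : ℕ} (u : EuclideanSpace ℝ (Fin n)) (K : Set (EuclideanSpace ℝ (Fin n))) :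
    Set (EuclideanSpace ℝ (Fin n)) :=
  {y | ∃ x : EuclideanSpace ℝ (Fin n), ∃ t : ℝ, inner ℝ x u = 0 ∧ y = x + t • u ∧
    (∃ s : ℝ, x + s • u ∈ K) ∧ |t| ≤ (1 / 2) * (volume {s : ℝ | x + s • u ∈ K}).toReal}

/-- The iterated Steiner symmetrals `K_0 = K`, `K_i = s_{u_i} K_{i-1}` for `i ≥ 1`. -/
def iteratedSymmetral {n : ℕ} (u : ℕ → EuclideanSpace ℝ (Fin n))
    (K : Set (EuclideanSpace ℝ (Fin n))) : ℕ → Set (EuclideanSpace ℝ (Fin n))
  | 0 => K
  | i + 1 => steinerSymmetral (u (i + 1)) (iteratedSymmetral u K i)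

open Pool.Agent.Work.MP_2ecbc5_gt in
theorem steinerSymmetral_eq {n : ℕ} (u : EuclideanSpace ℝ (Fin n))
    (K : Set (EuclideanSpace ℝ (Fin n))) : steinerSymmetral u K = St u K := by
  ext y
  constructor
  · rintro ⟨x, t, hx, hy, hs, ht⟩
    refine ⟨x, t, hy, hx, hs, ?_⟩
    have h2 := mul_le_mul_of_nonneg_left ht (zero_le_two (α := ℝ))
    rwa [← mul_assoc, mul_one_div_cancel (two_ne_zero), one_mul] at h2
  · rintro ⟨x, t, hy, hx, hs, ht⟩
    refine ⟨x, t, hx, hy, hs, ?_⟩
    rw [one_div, inv_mul_eq_div, le_div_iff₀' (zero_lt_two)]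
    exact ht

open Pool.Agent.Work.MP_2ecbc5_gt in
/-- Iterated Steiner symmetrals of a convex body, along any sequence of directions, converge in
shape; the isometries can be taken linear and the limit is again a convex body. -/
theorem result {n : ℕ} (K : Set (EuclideanSpace ℝ (Fin n))) (hK : IsCompact K)
    (hconv : Convex ℝ K) (hint : (interior K).Nonempty)
    (u : ℕ → EuclideanSpace ℝ (Fin n)) (hu : ∀ i, 1 ≤ i → ‖u i‖ = 1) :
    ∃ (ψ : ℕ → (EuclideanSpace ℝ (Fin n) ≃ₗᵢ[ℝ] EuclideanSpace ℝ (Fin n)))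
      (L : Set (EuclideanSpace ℝ (Fin n))),
      IsCompact L ∧ Convex ℝ L ∧ (interior L).Nonempty ∧
        Tendsto (fun i => Metric.hausdorffDist (ψ i '' iteratedSymmetral u K i) L)
          atTop (𝓝 0) := by
  refine steiner_full (iteratedSymmetral u K) hK hconv hint (fun i => u (i + 1))
    (fun i => hu (i + 1) (Nat.le_add_left 1 i)) fun i => ?_
  rw [← steinerSymmetral_eq]
  rfl

end Pool.Agent.Results.MP_2ecbc5_gt.ShapeConvergence
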